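import Pool.Agent.H97.NF.Targets

/-!
# LOC, POS, DYS, TIL
-/

set_option autoImplicit false

open MeasureTheory ProbabilityTheory Filter Topology

namespace Pool.Agent.H62.NF

open Pool.Agent.H99.NS Pool.Agent.H97.NF

/-- LOC. -/
theorem pf_LOC (h1 : T_NIC) : T_LOC := by
  classical
  intro q S g h hg hh ρ ρ' hρ
  unfold FF
  obtain ⟨Φ, hΦ⟩ : ∃ Φ : (S → ℕ × ℕ) → ℝ, ∀ E : PEnv, g (eA E) * h (eB E) = Φ (S.restrict E) := by
    refine ⟨fun e => g (fun x => if hx : x ∈ S then (e ⟨x, hx⟩).1 else 0) *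
      h (fun x => if hx : x ∈ S then (e ⟨x, hx⟩).2 else 0), ?_⟩
    intro E
    congr 1
    · refine hg.dep _ _ fun x hx => ?_
      rw [dif_pos hx]
      rfl
    · refine hh.dep _ _ fun x hx => ?_
      rw [dif_pos hx]
      rfl
  have hm : ∀ σ : Site → ℝ, ∫ E, g (eA E) * h (eB E) ∂(PN q σ) =
      ∫ e, Φ e ∂(Measure.pi fun i : S => pairLaw q (σ i)) := by
    intro σ
    have h2 := MeasureTheory.Measure.infinitePi_map_restrict (fun x : Site => pairLaw q (σ x))
      (I := S)
    rw [← h2, integral_map (Finset.measurable_restrict S).aemeasurable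
      (measurable_of_countable Φ).aestronglyMeasurable]
    refine integral_congr_ae (Filter.Eventually.of_forall fun E => ?_)
    exact hΦ E
  rw [hm, hm]
  have : (fun i : S => pairLaw q (ρ i)) = fun i : S => pairLaw q (ρ' i) := by
    funext i
    rw [hρ i i.2]
  rw [this]

lemma cl_cl (r : ℝ) : cl (cl r) = cl r := by
  have h1 := cl_nonneg r
  have h2 := cl_le_one r
  unfold cl at *
  rw [min_eq_left h2, max_eq_right h1]

lemma pairLaw_cl (q r : ℝ) : pairLaw q (cl r) = pairLaw q r := by
  unfold pairLaw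
  rw [cl_cl]

/-- POS. -/
theorem pf_POS (h1 : T_NIC) (h2 : T_FE1) (h3 : T_LOC) : T_POS := by
  classical
  intro q hq0 hq1 S
  obtain ⟨n, hn⟩ : ∃ n, S.card = n := ⟨_, rfl⟩
  induction n generalizing S with
  | zero =>
    intro h hh ρ
    rw [Finset.card_eq_zero] at hn
    subst hn
    unfold FF
    refine integral_nonneg fun E => ?_
    have : h (eA E) = h (eB E) := hh.dep _ _ (by simp)
    change 0 ≤ h (eA E) * h (eB E)
    rw [this]
    exact mul_self_nonneg _
  | succ n ih =>
    intro h hh ρ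
    obtain ⟨x, hx⟩ := Finset.card_pos.1 (by omega : 0 < S.card)
    have hc : (S.erase x).card = n := by rw [Finset.card_erase_of_mem hx]; omega
    have e1 : FF q h h ρ = FF q h h (Function.update ρ x (cl (ρ x))) := by
      have : PN q ρ = PN q (Function.update ρ x (cl (ρ x))) := by
        unfold PN
        congr 1
        funext y
        by_cases hy : y = x
        · subst hy
          rw [Function.update_self, pairLaw_cl]
        · rw [Function.update_of_ne hy]
      unfold FF
      rw [this]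
    rw [e1, h2 q hq0 hq1 S h h hh hh ρ x (cl (ρ x)) (cl_nonneg _) (cl_le_one _)]
    have hs1 := cl_nonneg (ρ x)
    have hs2 := cl_le_one (ρ x)
    have t1 : 0 ≤ ∫ k, FF q (fun ω => h (Function.update ω x k))
        (fun ω => h (Function.update ω x k)) ρ ∂(geo q) :=
      integral_nonneg fun k => ih _ hc _ (h1.2.2.2.1 S h x k hh) ρ
    have t2 : 0 ≤ FF q (Ex q x h) (Ex q x h) ρ :=
      ih _ hc _ (h1.2.2.2.2.1 q hq0 hq1 S h x hh) ρ
    have := mul_nonneg (sub_nonneg.2 hs2) t1
    have := mul_nonneg hs1 t2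
    linarith

/-- DYS. -/
theorem pf_DYS (h1 : T_VDI) (h2 : T_VVF) : T_DYS := by
  intro q hq0 hq1 n κ hκ0 hκ1 a b
  obtain ⟨-, v2, -, v4, -, v6, -⟩ := h2 q hq0 hq1 n
  have hr0 : ∀ k, 0 ≤ rk κ k := fun k => by unfold rk; positivity
  have hr1 : ∀ k, rk κ k ≤ 1 := fun k => by
    unfold rk
    have : ((1 : ℝ) / 4) ^ k ≤ 1 := pow_le_one₀ (by norm_num) (by norm_num)
    have h0 : (0 : ℝ) ≤ ((1 : ℝ) / 4) ^ k := by positivity
    nlinarith
  have hstep : ∀ k, 3 / 4 * (rk κ k * Inft q n (fun _ => rk κ k)) ≤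
      VV q n (fun _ => rk κ (k + 1)) - VV q n (fun _ => rk κ k) := by
    intro k
    have e : rk κ (k + 1) = rk κ k / 4 := by unfold rk; rw [pow_succ]; ring
    have := h1 q hq0 hq1 n (rk κ (k + 1)) (rk κ k) (hr0 _) (by rw [e]; linarith [hr0 k]) (hr1 k)
    have e2 : (rk κ k - rk κ (k + 1)) * Inft q n (fun _ => rk κ k) =
        3 / 4 * (rk κ k * Inft q n (fun _ => rk κ k)) := by rw [e]; ring
    rw [e2] at this
    exact this
  have hvar : ∀ k, VV q n (fun _ => rk κ k) ≤ Var[ff n; PE q] := by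
    intro k
    rw [← v4 (fun _ => 0) (fun _ _ => rfl)]
    exact v6 _ _ fun x _ => ⟨le_refl _, hr0 k, hr1 k⟩
  have key : ∀ m, a ≤ m → 3 / 4 * ∑ k ∈ Finset.Ico a m, rk κ k * Inft q n (fun _ => rk κ k) ≤
      VV q n (fun _ => rk κ m) - VV q n (fun _ => rk κ a) := by
    intro m hm
    induction m, hm using Nat.le_induction with
    | base => simp
    | succ m hm ih =>
      rw [Finset.sum_Ico_succ_top hm, mul_add]
      have := hstep m
      linarith
  have hIcc : Finset.Icc a b = Finset.Ico a (b + 1) := by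
    ext k; simp only [Finset.mem_Icc, Finset.mem_Ico]; omega
  rcases le_or_gt a (b + 1) with hab | hab
  · rw [hIcc]
    have := key (b + 1) hab
    have := hvar (b + 1)
    have := v2 (fun _ => rk κ a)
    linarith
  · rw [hIcc, Finset.Ico_eq_empty (by omega), Finset.sum_empty]
    have : 0 ≤ Var[ff n; PE q] := variance_nonneg _ _
    linarith

/-- TIL. -/
theorem pf_TIL (h1 : T_QST) (h2 : T_VVF) : T_TIL := by
  classical
  intro q hq0 hq1 n r hr0 hr1 Z Q b hcov hb
  obtain ⟨-, -, -, -, v5, -, -⟩ := h2 q hq0 hq1 n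
  have key : ∀ U : Finset (ℤ × ℤ), U ⊆ Z →
      VV q n (fun _ => r) - VV q n (fun x => if ∃ z ∈ U, x ∈ Q z then 1 else r) ≤
        1 / 2 * ∑ z ∈ U, b z := by
    intro U
    induction U using Finset.induction_on with
    | empty =>
      intro _
      simp
    | insert z U hz ih =>
      intro hU
      have ih' := ih (fun y hy => hU (Finset.mem_insert_of_mem hy))
      rw [Finset.sum_insert hz]
      have e : (fun x => if ∃ y ∈ insert z U, x ∈ Q y then (1 : ℝ) else r) =
          one (Q z) (fun x => if ∃ z ∈ U, x ∈ Q z then 1 else r) := by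
        funext x
        unfold one
        by_cases hx : x ∈ Q z
        · rw [if_pos hx, if_pos ⟨z, Finset.mem_insert_self _ _, hx⟩]
        · rw [if_neg hx]
          change _ = if ∃ y ∈ U, x ∈ Q y then (1 : ℝ) else r
          by_cases hx2 : ∃ y ∈ U, x ∈ Q y
          · rw [if_pos hx2]
            obtain ⟨y, hy, hxy⟩ := hx2
            rw [if_pos ⟨y, Finset.mem_insert_of_mem hy, hxy⟩]
          · rw [if_neg hx2, if_neg]
            rintro ⟨y, hy, hxy⟩
            rcases Finset.mem_insert.1 hy with h | h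
            · subst h; exact hx hxy
            · exact hx2 ⟨y, h, hxy⟩
      rw [e]
      have hq := (h1 q hq0 hq1 n (fun x => if ∃ z ∈ U, x ∈ Q z then 1 else r) (Q z)).2
      have hb' := hb z (hU (Finset.mem_insert_self _ _))
        (fun x => if ∃ z ∈ U, x ∈ Q z then 1 else r) (fun x => by
          split_ifs
          · exact ⟨hr1, le_refl _⟩
          · exact ⟨le_refl _, hr1⟩)
      linarith
  have hZ := key Z (Finset.Subset.refl _)
  rw [v5 (fun x => if ∃ z ∈ Z, x ∈ Q z then 1 else r) (fun x hx => if_pos (hcov x hx))] at hZ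
  linarith

end Pool.Agent.H62.NF
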